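import Pool.Agent.K3h94.FQ.Hyp

/-!
# The degree bound for complete intersections and arithmetically Cohen-Macaulay varieties
-/

set_option autoImplicit false

namespace Pool.Agent.K3h94.FQ

open MvPolynomial Pool.Agent.TH144.MB

theorem reg_ofFn {N : ℕ} (s : ℕ) : ∀ (a : Fin s → Fin (N + 1) → ℂ)
    (I : Ideal (MvPolynomial (Fin (N + 1)) ℂ)),
    (∀ i p, lin (a i) * p ∈ I ⊔ Ideal.span ((fun j => lin (a j)) '' {j | j < i}) →
      p ∈ I ⊔ Ideal.span ((fun j => lin (a j)) '' {j | j < i})) →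
    Reg I ((List.ofFn a).map lin) := by
  induction s with
  | zero => intro a I _; simp [Reg]
  | succ s ih =>
    intro a I h
    rw [List.ofFn_succ, List.map_cons]
    refine ⟨?_, ih _ _ ?_⟩
    · have h0 := h 0
      have h1 : {j : Fin (s + 1) | j < 0} = ∅ := by
        ext j
        simp
      rw [h1, Set.image_empty, Ideal.span_empty, sup_bot_eq] at h0
      exact h0
    · intro i p
      have h0 := h i.succ p
      have h1 : {j : Fin (s + 1) | j < i.succ} = {0} ∪ Fin.succ '' {j | j < i} := by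
        ext j
        refine Fin.cases ?_ (fun j => ?_) j
        · simp
        · simp [Fin.succ_ne_zero]
      have h2 : I ⊔ Ideal.span ((fun j => lin (a j)) '' {j | j < i.succ})
          = I ⊔ Ideal.span {lin (a 0)}
            ⊔ Ideal.span ((fun j => lin (a (Fin.succ j))) '' {j | j < i}) := by
        rw [h1, Set.image_union, Set.image_singleton, Ideal.span_union, ← sup_assoc,
          Set.image_image]
      rw [h2] at h0
      exact h0

theorem le_ext_ofFn {N : ℕ} (s : ℕ) (a : Fin s → Fin (N + 1) → ℂ)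
    (I : Ideal (MvPolynomial (Fin (N + 1)) ℂ)) :
    I ⊔ Ideal.span (Set.range fun j => lin (a j)) ≤ ext I ((List.ofFn a).map lin) := by
  have h4 : ∀ (L : List (MvPolynomial (Fin (N + 1)) ℂ))
      (I : Ideal (MvPolynomial (Fin (N + 1)) ℂ)), ∀ f ∈ L, f ∈ ext I L := by
    intro L
    induction L with
    | nil => intro I f hf; simp at hf
    | cons g L ih =>
      intro I f hf
      rw [ext_cons]
      rcases List.mem_cons.1 hf with rfl | hf
      · exact Ideal.mem_sup_right (Ideal.mem_span_singleton_self f)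
      · exact Ideal.mem_sup_left (ih I f hf)
  refine sup_le (le_ext _ _) ?_
  rw [Ideal.span_le]
  rintro _ ⟨j, rfl⟩
  refine h4 _ _ _ (List.mem_map.2 ⟨a j, ?_, rfl⟩)
  rw [List.mem_ofFn]
  exact ⟨j, rfl⟩

theorem bound {N : ℕ} {I : Ideal (MvPolynomial (Fin (N + 1)) ℂ)} (hI : Hom I) (n : ℕ) (κ : ℤ)
    (hY : (∃ (c : ℕ) (f : Fin c → MvPolynomial (Fin (N + 1)) ℂ) (d : Fin c → ℕ),
        (∀ j, (f j).IsHomogeneous (d j) ∧ 0 < d j) ∧ I = Ideal.span (Set.range f) ∧
        N = n + c ∧ κ = ∑ j, (d j : ℤ) - (N + 1)) ∨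
      ∃ a : Fin (n + 1) → Fin (N + 1) → ℂ,
        (∀ i p, lin (a i) * p ∈ I ⊔ Ideal.span ((fun j => lin (a j)) '' {j | j < i}) →
          p ∈ I ⊔ Ideal.span ((fun j => lin (a j)) '' {j | j < i})) ∧
        ∀ t : ℕ, κ + n + 1 < t → ∀ p : MvPolynomial (Fin (N + 1)) ℂ, p.IsHomogeneous t →
          p ∈ I ⊔ Ideal.span (Set.range fun j => lin (a j)))
    {y : Fin (N + 1) → ℂ} (hy : ∀ p ∈ I, eval y p = 0) :
    ∃ r : ℕ, TopBound I r ∧ (r : ℤ) = κ + n + 1 := by
  rcases hY with ⟨c, f, d, hfd, hI', hN, hκ⟩ | ⟨a, ha, hb⟩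
  · refine ⟨∑ j, (d j - 1), ?_, ?_⟩
    · rw [hI']
      exact topBound_forms f d (fun j => (hfd j).1) fun j => (hfd j).2
    · have h1 : ((∑ j, (d j - 1) : ℕ) : ℤ) = ∑ j, (d j : ℤ) - c := by
        rw [Nat.cast_sum]
        have h2 : ∀ j, ((d j - 1 : ℕ) : ℤ) = (d j : ℤ) - 1 := fun j => by
          have := (hfd j).2
          omega
        simp only [h2]
        rw [Finset.sum_sub_distrib]
        simp
      have h3 : (N : ℤ) = n + c := by exact_mod_cast hN
      rw [h1, hκ, h3]
      ring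
  · rcases lt_or_ge (κ + n + 1) 0 with h0 | h0
    · exfalso
      have h1 := hb 0 (by simpa using h0) 1 (isHomogeneous_one _ _)
      have h2 : I ⊔ Ideal.span (Set.range fun j => lin (a j))
          ≤ RingHom.ker (eval (fun i => (0 : ℂ) * y i)) := by
        refine sup_le (fun p hp => RingHom.mem_ker.2 (cone hI hy 0 p hp)) ?_
        rw [Ideal.span_le]
        rintro _ ⟨j, rfl⟩
        refine RingHom.mem_ker.2 ?_
        show eval _ (lin (a j)) = 0
        rw [eval_lin]
        exact Finset.sum_eq_zero fun i _ => by rw [zero_mul, mul_zero]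
      have h3 := RingHom.mem_ker.1 (h2 h1)
      rw [map_one] at h3
      exact one_ne_zero h3
    · refine ⟨(κ + n + 1).toNat, ?_, by omega⟩
      refine topBound_cm hI (List.ofFn a) (reg_ofFn (n + 1) a I ha) ?_
      intro t ht p hp
      refine le_ext_ofFn (n + 1) a I (hb t ?_ p hp)
      omega

end Pool.Agent.K3h94.FQ
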