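import Pool.Agent.TH144.MB.Tan

/-!
# Products of linear forms with simple and double zeros at given points

`exists_form2` : an indexed form of `TH144.MB.exists_form`; a vector which occurs twice in the family
is a double zero.
`exists_double` : let `T` be a finite set of tangent vectors `(a i, b i)`, none of the `a i`
proportional to `y`. Let `T` have at most `t` elements, and for each plane `m` containing `y` let
`2 V_m + P_m ≤ t`, where `V_m` (resp. `P_m`) is the number of `i ∈ T` with `a i ∈ m` and `b i ∈ m`
(resp. `b i ∉ m`). Then a product of `t` linear forms does not vanish at `y` and, for all `i ∈ T`,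
vanishes at `a i` together with its derivative in the direction `b i`.
-/

set_option autoImplicit false

namespace Pool.Agent.K3h94.FQ

open MvPolynomial Module Pool.Agent.TH144.MB

variable {n : ℕ}

theorem dv_mul (p q : MvPolynomial (Fin n) ℂ) (v w : Fin n → ℂ) :
    dv (p * q) v w = dv p v w * eval v q + eval v p * dv q v w := by
  simp only [dv, Derivation.leibniz, smul_eq_mul, map_add, map_mul, add_mul,
    Finset.sum_add_distrib, Finset.mul_sum, Finset.sum_mul]
  rw [add_comm]
  congr 1 <;> exact Finset.sum_congr rfl fun i _ => by ring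

theorem dv_add (p q : MvPolynomial (Fin n) ℂ) (v w : Fin n → ℂ) :
    dv (p + q) v w = dv p v w + dv q v w := by
  simp only [dv, map_add, add_mul, Finset.sum_add_distrib]

theorem dv_sum {ι : Type} (s : Finset ι) (p : ι → MvPolynomial (Fin n) ℂ) (v w : Fin n → ℂ) :
    dv (∑ i ∈ s, p i) v w = ∑ i ∈ s, dv (p i) v w := by
  simp only [dv, map_sum, Finset.sum_mul]
  rw [Finset.sum_comm]

theorem dv_lin (a v w : Fin n → ℂ) : dv (lin a) v w = eval w (lin a) := by
  classical
  rw [eval_lin]
  unfold dv lin
  refine Finset.sum_congr rfl fun i _ => ?_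
  congr 1
  rw [map_sum, map_sum, Finset.sum_eq_single i]
  · rw [pderiv_C_mul, pderiv_X_self, mul_one, eval_C]
  · intro j _ hj
    rw [pderiv_C_mul, pderiv_X_of_ne hj, mul_zero, map_zero]
  · intro h; exact absurd (Finset.mem_univ _) h

theorem exists_form2 {y : Fin n → ℂ} (hy : y ≠ 0) {β : Type} [DecidableEq β]
    (v : β → Fin n → ℂ) (t : ℕ) :
    ∀ (Q : Finset β), (∀ q ∈ Q, v q ∉ Submodule.span ℂ {y}) → Q.card ≤ 2 * t →
    (∀ q ∈ Q, ∀ R ⊆ Q, (∀ q' ∈ R, v q' ∈ Submodule.span ℂ {y, v q}) → R.card ≤ t) →
    ∃ F : MvPolynomial (Fin n) ℂ, F.IsHomogeneous t ∧ eval y F ≠ 0 ∧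
      (∀ q ∈ Q, eval (v q) F = 0) ∧
      ∀ q ∈ Q, ∀ q' ∈ Q, q ≠ q' → v q = v q' → ∀ w, dv F (v q) w = 0 := by
  classical
  induction t with
  | zero =>
    intro Q _ hc _
    have h1 : Q = ∅ := Finset.card_eq_zero.1 (by omega)
    refine ⟨1, isHomogeneous_one _ _, by simp, ?_, ?_⟩
    · intro q hq
      rw [h1] at hq
      exact absurd hq (Finset.notMem_empty _)
    · intro q hq
      rw [h1] at hq
      exact absurd hq (Finset.notMem_empty _)
  | succ t ih =>
    intro Q hQ hc hR
    rcases Q.eq_empty_or_nonempty with he | hne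
    · obtain ⟨i, hi⟩ : ∃ i, y i ≠ 0 := by
        by_contra hcon
        push Not at hcon
        exact hy (funext hcon)
      refine ⟨X i ^ (t + 1), by simpa using (isHomogeneous_X ℂ i).pow (t + 1), ?_, ?_, ?_⟩
      · rw [map_pow, eval_X]
        exact pow_ne_zero _ hi
      · intro q hq
        rw [he] at hq
        exact absurd hq (Finset.notMem_empty _)
      · intro q hq
        rw [he] at hq
        exact absurd hq (Finset.notMem_empty _)
    · have hmem : ∀ q q' : β, Submodule.span ℂ {y, v q'} = Submodule.span ℂ {y, v q} →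
          v q' ∈ Submodule.span ℂ {y, v q} := by
        intro q q' h
        rw [← h]
        exact Submodule.subset_span (by simp)
      obtain ⟨q1, hq1, q2, hq2, h12, hc', hf'⟩ := pairing
        (fun q : β => Submodule.span ℂ {y, v q}) hne hc (by
          intro q hq
          refine hR q hq _ (Finset.filter_subset _ _) ?_
          intro q' hq'
          exact hmem _ _ (Finset.mem_filter.1 hq').2)
      have hsub : (Q.erase q1).erase q2 ⊆ Q :=
        (Finset.erase_subset _ _).trans (Finset.erase_subset _ _)
      obtain ⟨F, hF, hFy, hFQ, hFQ2⟩ := ih ((Q.erase q1).erase q2) (fun q hq => hQ q (hsub hq))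
        hc' (by
        intro q hq R hRQ hRs
        refine (Finset.card_le_card ?_).trans (hf' q hq)
        intro q' hq'
        refine Finset.mem_filter.2 ⟨hRQ hq', ?_⟩
        exact span_pair_eq (hRs q' hq') (hQ q' (hsub (hRQ hq'))))
      obtain ⟨a, ha, ha1, ha2⟩ := exists_lin_pair hy (hQ q1 hq1) (hQ q2 hq2) (by
        rcases h12 with h | h
        · exact Or.inl (by rw [h])
        · exact Or.inr h)
      refine ⟨lin a * F, ?_, ?_, ?_, ?_⟩
      · have := (lin_hom a).mul hF
        rwa [add_comm] at this
      · rw [map_mul]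
        exact mul_ne_zero ha hFy
      · intro q hq
        rw [map_mul]
        by_cases h1 : q = q1
        · rw [h1, ha1, zero_mul]
        · by_cases h2 : q = q2
          · rw [h2, ha2, zero_mul]
          · rw [hFQ q (Finset.mem_erase.2 ⟨h2, Finset.mem_erase.2 ⟨h1, hq⟩⟩), mul_zero]
      · -- double points
        have key : ∀ q ∈ Q, ∀ q' ∈ Q, q ≠ q' → v q = v q' →
            (q = q1 ∨ q = q2) → ∀ w, dv (lin a * F) (v q) w = 0 := by
          intro q hq q' hq' hne' hv h w
          have haq : eval (v q) (lin a) = 0 := by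
            rcases h with rfl | rfl
            · exact ha1
            · exact ha2
          have hq'' : q' ∈ (Q.erase q1).erase q2 := by
            refine Finset.mem_erase.2 ⟨?_, Finset.mem_erase.2 ⟨?_, hq'⟩⟩
            · rintro rfl
              rcases h with rfl | rfl
              · rcases h12 with h3 | h3
                · exact hne' h3
                · exact h3 (by rw [hv])
              · exact hne' rfl
            · rintro rfl
              rcases h with rfl | rfl
              · exact hne' rfl
              · rcases h12 with h3 | h3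
                · exact hne' h3.symm
                · exact h3 (by rw [hv])
          rw [dv_mul, haq, zero_mul, add_zero, hv, hFQ q' hq'', mul_zero]
        intro q hq q' hq' hne' hv w
        by_cases h1 : q = q1 ∨ q = q2
        · exact key q hq q' hq' hne' hv h1 w
        · by_cases h2 : q' = q1 ∨ q' = q2
          · rw [hv]
            exact key q' hq' q hq hne'.symm hv.symm h2 w
          · push Not at h1 h2
            have e1 : q ∈ (Q.erase q1).erase q2 :=
              Finset.mem_erase.2 ⟨h1.2, Finset.mem_erase.2 ⟨h1.1, hq⟩⟩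
            have e2 : q' ∈ (Q.erase q1).erase q2 :=
              Finset.mem_erase.2 ⟨h2.2, Finset.mem_erase.2 ⟨h2.1, hq'⟩⟩
            rw [dv_mul, hFQ q e1, mul_zero, zero_add, hFQ2 q e1 q' e2 hne' hv, mul_zero]


theorem lin_tangent {y a b : Fin n → ℂ} (ha : a ∉ Submodule.span ℂ {y}) (hy : y ≠ 0)
    (hb : b ∉ Submodule.span ℂ {y, a}) :
    ∃ c : Fin n → ℂ, eval y (lin c) ≠ 0 ∧ eval a (lin c) = 0 ∧ eval b (lin c) = 0 := by
  have h1 : y ∉ Submodule.span ℂ {a, b} := by
    intro h
    obtain ⟨r, s, hrs⟩ := Submodule.mem_span_pair.1 h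
    by_cases hs : s = 0
    · rw [hs, zero_smul, add_zero] at hrs
      have hr : r ≠ 0 := by
        rintro rfl
        exact hy (by rw [← hrs, zero_smul])
      exact ha (Submodule.mem_span_singleton.2 ⟨r⁻¹, by
        rw [← hrs, smul_smul, inv_mul_cancel₀ hr, one_smul]⟩)
    · apply hb
      refine Submodule.mem_span_pair.2 ⟨s⁻¹, -(s⁻¹ * r), ?_⟩
      rw [← hrs, smul_add, smul_smul, smul_smul, inv_mul_cancel₀ hs, one_smul]
      module
  obtain ⟨c, hc, h2⟩ := exists_lin_of_notMem h1
  exact ⟨c, hc, h2 _ (Submodule.subset_span (by simp)), h2 _ (Submodule.subset_span (by simp))⟩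

/-- the combinatorial step: which tangent vectors are to be covered by one form -/
theorem choose_part {β γ : Type} [DecidableEq β] [DecidableEq γ] (f : β → γ) (V P : Finset β)
    (t : ℕ) (hc : V.card + P.card ≤ t)
    (hf : ∀ x, 2 * (V.filter fun i => f i = x).card + (P.filter fun i => f i = x).card ≤ t) :
    ∃ P1 ⊆ P, P1.card ≤ t ∧ V.card + (P \ P1).card ≤ t - P1.card ∧
      ∀ x, 2 * (V.filter fun i => f i = x).card + 2 * ((P \ P1).filter fun i => f i = x).card
        ≤ t - P1.card := by
  by_cases h : ∀ x, 2 * (V.filter fun i => f i = x).card + P.card ≤ t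
  · refine ⟨P, Finset.Subset.refl _, by omega, ?_, fun x => ?_⟩
    · rw [Finset.sdiff_self, Finset.card_empty]
      omega
    · rw [Finset.sdiff_self, Finset.filter_empty, Finset.card_empty]
      have := h x
      omega
  · push Not at h
    obtain ⟨x0, hx0⟩ := h
    have h0 := hf x0
    obtain ⟨P1, h1, h2, h3⟩ := Finset.exists_subsuperset_card_eq
      (s := P.filter fun i => f i = x0) (t := P)
      (n := t - 2 * (V.filter fun i => f i = x0).card) (Finset.filter_subset _ _) (by omega)
      (by omega)
    have hPP : (P \ P1).card = P.card - P1.card := Finset.card_sdiff_of_subset h2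
    have hP1 : P1.card ≤ P.card := Finset.card_le_card h2
    have hV0 : (V.filter fun i => f i = x0).card ≤ V.card := Finset.card_filter_le _ _
    refine ⟨P1, h2, by omega, by omega, fun x => ?_⟩
    by_cases hx : x = x0
    · subst hx
      have h4 : (P \ P1).filter (fun i => f i = x) = ∅ := by
        rw [Finset.filter_eq_empty_iff]
        intro i hi hix
        rw [Finset.mem_sdiff] at hi
        exact hi.2 (h1 (Finset.mem_filter.2 ⟨hi.1, hix⟩))
      rw [h4, Finset.card_empty]
      omega
    · have h4 : (V.filter fun i => f i = x).card + (V.filter fun i => f i = x0).card ≤ V.card := by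
        rw [← Finset.card_union_of_disjoint]
        · exact Finset.card_le_card (Finset.union_subset (Finset.filter_subset _ _)
            (Finset.filter_subset _ _))
        · rw [Finset.disjoint_filter]
          intro i _ hi hi2
          exact hx (hi.symm.trans hi2)
      have h5 : ((P \ P1).filter fun i => f i = x).card ≤ (P \ P1).card :=
        Finset.card_filter_le _ _
      omega

theorem exists_double {y : Fin n → ℂ} (hy : y ≠ 0) {β : Type} [DecidableEq β]
    (a b : β → Fin n → ℂ) (t : ℕ) (T : Finset β) (hT : ∀ i ∈ T, a i ∉ Submodule.span ℂ {y})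
    (hc : T.card ≤ t)
    (hm : ∀ q ∈ T, ∀ V ⊆ T, ∀ P ⊆ T,
      (∀ i ∈ V, a i ∈ Submodule.span ℂ {y, a q} ∧ b i ∈ Submodule.span ℂ {y, a q}) →
      (∀ i ∈ P, a i ∈ Submodule.span ℂ {y, a q} ∧ b i ∉ Submodule.span ℂ {y, a q}) →
      2 * V.card + P.card ≤ t) :
    ∃ F : MvPolynomial (Fin n) ℂ, F.IsHomogeneous t ∧ eval y F ≠ 0 ∧
      ∀ i ∈ T, eval (a i) F = 0 ∧ dv F (a i) (b i) = 0 := by
  classical
  set f : β → Submodule ℂ (Fin n → ℂ) := fun i => Submodule.span ℂ {y, a i} with hf
  have hmem : ∀ i q, f i = f q → a i ∈ f q := by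
    intro i q h
    rw [← h]
    exact Submodule.subset_span (by simp)
  have hmem' : ∀ i ∈ T, ∀ q, a i ∈ f q → f i = f q := by
    intro i hi q h
    exact span_pair_eq h (hT i hi)
  set V := T.filter fun i => b i ∈ f i with hV
  set P := T.filter fun i => b i ∉ f i with hP
  have hVT : V ⊆ T := Finset.filter_subset _ _
  have hPT : P ⊆ T := Finset.filter_subset _ _
  have hVP : V.card + P.card = T.card := Finset.card_filter_add_card_filter_not _
  obtain ⟨P1, hP1, hP1t, hc1, hc2⟩ := choose_part f V P t (by omega) (by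
    intro x
    by_cases hx : ∃ q ∈ T, f q = x
    · obtain ⟨q, hq, rfl⟩ := hx
      refine hm q hq _ ((Finset.filter_subset _ _).trans hVT) _
        ((Finset.filter_subset _ _).trans hPT) ?_ ?_
      · intro i hi
        obtain ⟨h1, h2⟩ := Finset.mem_filter.1 hi
        refine ⟨hmem _ _ h2, ?_⟩
        have h3 := (Finset.mem_filter.1 h1).2
        rw [h2] at h3
        exact h3
      · intro i hi
        obtain ⟨h1, h2⟩ := Finset.mem_filter.1 hi
        refine ⟨hmem _ _ h2, ?_⟩
        have h3 := (Finset.mem_filter.1 h1).2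
        rw [h2] at h3
        exact h3
    · push Not at hx
      have h1 : V.filter (fun i => f i = x) = ∅ := by
        rw [Finset.filter_eq_empty_iff]
        exact fun i hi => hx i (hVT hi)
      have h2 : P.filter (fun i => f i = x) = ∅ := by
        rw [Finset.filter_eq_empty_iff]
        exact fun i hi => hx i (hPT hi)
      rw [h1, h2]
      simp)
  have hP1T : P1 ⊆ T := hP1.trans hPT
  -- the forms covering one tangent vector each
  have hL : ∀ i ∈ P1, ∃ c : Fin n → ℂ, eval y (lin c) ≠ 0 ∧ eval (a i) (lin c) = 0 ∧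
      eval (b i) (lin c) = 0 := by
    intro i hi
    exact lin_tangent (hT i (hP1T hi)) hy (Finset.mem_filter.1 (hP1 hi)).2
  choose! L hL1 hL2 hL3 using hL
  -- the rest
  set R : Finset β := V ∪ P \ P1 with hR
  have hRT : R ⊆ T := Finset.union_subset hVT (Finset.sdiff_subset.trans hPT)
  have hRc : R.card ≤ t - P1.card := (Finset.card_union_le _ _).trans hc1
  obtain ⟨F, hF, hFy, hF0, hF1⟩ := exists_form2 hy (fun x : β × Bool => a x.1) (t - P1.card)
    (R ×ˢ Finset.univ) (by
      intro q hq
      exact hT _ (hRT (Finset.mem_product.1 hq).1)) (by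
      rw [Finset.card_product, Finset.card_univ, Fintype.card_bool]
      omega) (by
      intro q hq S hS hSm
      have h1 : S ⊆ ((V.filter fun i => f i = f q.1) ∪ ((P \ P1).filter fun i => f i = f q.1))
          ×ˢ (Finset.univ : Finset Bool) := by
        intro x hx
        refine Finset.mem_product.2 ⟨?_, Finset.mem_univ _⟩
        have h2 := (Finset.mem_product.1 (hS hx)).1
        rw [← Finset.filter_union]
        exact Finset.mem_filter.2 ⟨h2, hmem' _ (hRT h2) _ (hSm x hx)⟩
      have h2 := Finset.card_le_card h1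
      rw [Finset.card_product, Finset.card_univ, Fintype.card_bool] at h2
      have h3 := Finset.card_union_le (V.filter fun i => f i = f q.1)
        ((P \ P1).filter fun i => f i = f q.1)
      have h4 := hc2 (f q.1)
      omega)
  refine ⟨(∏ i ∈ P1, lin (L i)) * F, ?_, ?_, ?_⟩
  · have h1 : (∏ i ∈ P1, lin (L i)).IsHomogeneous (∑ _i ∈ P1, 1) :=
      IsHomogeneous.prod _ _ _ fun i _ => lin_hom _
    rw [Finset.sum_const, smul_eq_mul, mul_one] at h1
    have h2 := h1.mul hF
    rwa [Nat.add_sub_cancel' hP1t] at h2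
  · rw [map_mul, map_prod]
    exact mul_ne_zero (Finset.prod_ne_zero_iff.2 fun i hi => hL1 i hi) hFy
  · intro i hi
    by_cases hiP : i ∈ P1
    · have h0 : (∏ j ∈ P1, lin (L j)) = lin (L i) * ∏ j ∈ P1.erase i, lin (L j) :=
        (Finset.mul_prod_erase _ _ hiP).symm
      rw [h0, mul_assoc]
      refine ⟨by rw [map_mul, hL2 i hiP, zero_mul], ?_⟩
      rw [dv_mul, dv_lin, hL3 i hiP, hL2 i hiP, zero_mul, zero_mul, add_zero]
    · have hiR : i ∈ R := by
        by_cases hb : b i ∈ f i
        · exact Finset.mem_union_left _ (Finset.mem_filter.2 ⟨hi, hb⟩)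
        · exact Finset.mem_union_right _ (Finset.mem_sdiff.2 ⟨Finset.mem_filter.2 ⟨hi, hb⟩, hiP⟩)
      have h1 : ((i, false) : β × Bool) ∈ R ×ˢ Finset.univ :=
        Finset.mem_product.2 ⟨hiR, Finset.mem_univ _⟩
      have h2 : ((i, true) : β × Bool) ∈ R ×ˢ Finset.univ :=
        Finset.mem_product.2 ⟨hiR, Finset.mem_univ _⟩
      have h3 := hF0 _ h1
      have h4 := hF1 _ h1 _ h2 (by simp) rfl (b i)
      refine ⟨by rw [map_mul, h3, mul_zero], ?_⟩
      rw [dv_mul, h3, h4, mul_zero, mul_zero, add_zero]

end Pool.Agent.K3h94.FQ
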