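import Pool.Agent.K3h94.FQ.Bound

/-!
# Fujita's freeness conjecture for étale quotients by finite groups of moderate order

`Y ⊂ P^N` is given by a homogeneous ideal `I`, and a finite group `G` acts linearly on `ℂ^(N+1)`,
preserving `I`; the group `Ḡ` of the transformations of `P^N` given by `G` acts freely on `Y`. Let
`ω_Y = O(κ)` and `n = dim Y`, and let `Y` be a complete intersection, or arithmetically
Cohen-Macaulay. For `X = Y/Ḡ` and a line bundle `A` on `X` whose pullback to `Y` is `O(k)`, `k ≥ 1`,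
the sections of `K_X + mA` are the forms of degree `e = κ + mk` on the cone over `Y` on which `G` acts
by a given character `χ`. Let `m ≥ n + 1`, and let `Ḡ` have at most `2 e + 1` elements, or let `Y` be a
hypersurface of positive dimension and let `Ḡ = G`. Then these sections have no common zero.
-/

set_option autoImplicit false

namespace Pool.Agent.K3h94.FQ.FreeSmallQuotients

open MvPolynomial Matrix

/-- A homogeneous ideal `I` in `ℂ[x_0, …, x_N]` and a representation `ρ` of `G` on `ℂ^(N+1)`. The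
ideal `I` is stable under `G`, and each `g` which fixes a line in its zero set acts on `ℂ^(N+1)` as
a scalar, that is, trivially on `P^N`. -/
structure LinearCover (G : Type) [Group G] (N : ℕ) where
  I : Ideal (MvPolynomial (Fin (N + 1)) ℂ)
  homogeneous : ∀ p ∈ I, ∀ n, homogeneousComponent n p ∈ I
  ρ : G →* Matrix (Fin (N + 1)) (Fin (N + 1)) ℂ
  stable : ∀ (g : G), ∀ p ∈ I, bind₁ (fun i => ∑ j, C (ρ g i j) * X j) p ∈ I
  free : ∀ v : Fin (N + 1) → ℂ, v ≠ 0 → (∀ p ∈ I, eval v p = 0) → ∀ (g : G) (c : ℂ),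
    ρ g *ᵥ v = c • v → ρ g = c • 1

/-- the elements of `G` which act trivially on `P^N` -/
def scalars {G : Type} [Group G] {N : ℕ} (D : LinearCover G N) : Subgroup G where
  carrier := {g | ∃ c : ℂ, D.ρ g = c • 1}
  one_mem' := (Pool.Agent.K3h94.FQ.scal D.ρ).one_mem'
  mul_mem' := (Pool.Agent.K3h94.FQ.scal D.ρ).mul_mem'
  inv_mem' := (Pool.Agent.K3h94.FQ.scal D.ρ).inv_mem'

/-- the linear form with coefficients `a` -/
noncomputable def linForm {N : ℕ} (a : Fin (N + 1) → ℂ) : MvPolynomial (Fin (N + 1)) ℂ :=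
  ∑ i, C (a i) * X i

/-- `I` is generated by `c = N - n` forms of degrees `d j ≥ 1`, and `κ = ∑ d j - (N + 1)`. -/
def CompleteIntersection {N : ℕ} (I : Ideal (MvPolynomial (Fin (N + 1)) ℂ)) (n : ℕ) (κ : ℤ) :
    Prop :=
  ∃ (c : ℕ) (f : Fin c → MvPolynomial (Fin (N + 1)) ℂ) (d : Fin c → ℕ),
    (∀ j, (f j).IsHomogeneous (d j) ∧ 0 < d j) ∧ I = Ideal.span (Set.range f) ∧
    N = n + c ∧ κ = ∑ j, (d j : ℤ) - (N + 1)

/-- There are `n + 1` linear forms which are a regular sequence modulo `I`, and modulo `I` and these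
linear forms there are no nonzero forms of degree `> κ + n + 1`. For the ideal of an arithmetically
Cohen-Macaulay variety of dimension `n` this says that the `a`-invariant is at most `κ`. -/
def CohenMacaulay {N : ℕ} (I : Ideal (MvPolynomial (Fin (N + 1)) ℂ)) (n : ℕ) (κ : ℤ) : Prop :=
  ∃ a : Fin (n + 1) → Fin (N + 1) → ℂ,
    (∀ i p, linForm (a i) * p ∈ I ⊔ Ideal.span ((fun j => linForm (a j)) '' {j | j < i}) →
      p ∈ I ⊔ Ideal.span ((fun j => linForm (a j)) '' {j | j < i})) ∧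
    ∀ t : ℕ, κ + n + 1 < t → ∀ p : MvPolynomial (Fin (N + 1)) ℂ, p.IsHomogeneous t →
      p ∈ I ⊔ Ideal.span (Set.range fun j => linForm (a j))

/-- The forms of degree `e` on which `G` acts by the character `χ`: the sections of the line bundle
on `X = Y/Ḡ` given by `e` and `χ`. -/
def Section {G : Type} [Group G] {N : ℕ} (D : LinearCover G N) (e : ℕ) (χ : G →* ℂˣ)
    (F : MvPolynomial (Fin (N + 1)) ℂ) : Prop :=
  F.IsHomogeneous e ∧ ∀ (g : G) (x : Fin (N + 1) → ℂ), eval (D.ρ g *ᵥ x) F = χ g * eval x F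

theorem result {G : Type} [Group G] [Finite G] {N : ℕ} (D : LinearCover G N) (n : ℕ) (κ : ℤ)
    (hY : CompleteIntersection D.I n κ ∨ CohenMacaulay D.I n κ)
    (k m e : ℕ) (hk : 1 ≤ k) (hm : n + 1 ≤ m) (he : (e : ℤ) = κ + m * k)
    (hG : (scalars D).index ≤ 2 * e + 1 ∨
      CompleteIntersection D.I n κ ∧ 1 ≤ n ∧ N = n + 1 ∧ scalars D = ⊥)
    (χ : G →* ℂˣ)
    -- the scalars act by `χ` on the forms of degree `e`
    (hχ : ∀ (g : G) (c : ℂ), D.ρ g = c • 1 → (χ g : ℂ) = c ^ e) :
    ∀ y : Fin (N + 1) → ℂ, y ≠ 0 → (∀ p ∈ D.I, eval y p = 0) →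
      ∃ F, Section D e χ F ∧ eval y F ≠ 0 := by
  classical
  let S : Pool.Agent.K3h94.FQ.LSit G (N + 1) :=
    { I := D.I, hom := D.homogeneous, ρ := D.ρ, stable := D.stable, free := D.free }
  have hmk : (n : ℤ) + 1 ≤ m * k := by
    have h1 : n + 1 ≤ m * k := hm.trans (Nat.le_mul_of_pos_right m hk)
    exact_mod_cast h1
  have hidx : (Pool.Agent.K3h94.FQ.scal S.ρ).index ≤ 2 * e + 1 := by
    rcases hG with hG | ⟨⟨c, f, d, hfd, hI, hN, hκ⟩, hn, hNn, hZ⟩
    · exact hG
    · obtain rfl : c = 1 := by omega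
      have h1 : Set.range f = {f 0} := by
        ext x
        simp [eq_comm]
      rw [h1] at hI
      have hZ' : Pool.Agent.K3h94.FQ.scal S.ρ = ⊥ := hZ
      have h2 := S.card_dvd (by omega) (hfd 0).1 (hfd 0).2 hI hZ'
      rw [hZ', Subgroup.index_bot]
      have h3 : (d 0 : ℤ) ≤ e + 1 := by
        rw [he, hκ, Fin.sum_univ_one, hNn]
        push_cast
        linarith
      have h4 := Nat.le_of_dvd (hfd 0).2 h2
      omega
  intro y hy0 hy
  obtain ⟨r, hr, hre⟩ := Pool.Agent.K3h94.FQ.bound D.homogeneous n κ hY hy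
  exact S.base hr (by omega) hχ hidx hy0 hy

end Pool.Agent.K3h94.FQ.FreeSmallQuotients
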