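import Pool.Agent.K3h94.FQ.Main
import Pool.Agent.TH144.MB.Hyper

/-!
# Free linear actions on hypersurfaces

The order of a finite linear group without scalars which acts freely on a hypersurface of degree `d`
in a projective space of positive dimension divides `d`.
-/

set_option autoImplicit false

namespace Pool.Agent.K3h94.FQ

open MvPolynomial Module Matrix Pool.Agent.TH144.MB

theorem two_eigen {n : ℕ} (hn : 2 ≤ n) {M : Matrix (Fin n) (Fin n) ℂ} {m : ℕ} (hm : m ≠ 0)
    (hM : M ^ m = 1) : ∃ (a b : Fin n → ℂ) (c d : ℂ), a ≠ 0 ∧ b ∉ Submodule.span ℂ {a} ∧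
      M *ᵥ a = c • a ∧ M *ᵥ b = d • b := by
  classical
  set φ : Module.End ℂ (Fin n → ℂ) := Matrix.toLinAlgEquiv' M with hφ
  have hφv : ∀ v, φ v = M *ᵥ v := fun v => Matrix.toLinAlgEquiv'_apply M v
  have hss : φ.IsSemisimple := by
    refine Module.End.isSemisimple_of_squarefree_aeval_eq_zero
      (p := Polynomial.X ^ m - Polynomial.C 1) ?_ ?_
    · exact (Polynomial.separable_X_pow_sub_C (1 : ℂ) (Nat.cast_ne_zero.2 hm)
        one_ne_zero).squarefree
    · rw [map_sub, map_pow, Polynomial.aeval_X, Polynomial.aeval_C, map_one, hφ, ← map_pow, hM,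
        map_one, sub_self]
  have htop := hss.iSup_eigenspace_eq_top
  by_contra hcon
  push Not at hcon
  have : Nonempty (Fin n) := ⟨⟨0, by omega⟩⟩
  have hnt : Nontrivial (Fin n → ℂ) := inferInstance
  obtain ⟨c, hc⟩ := Module.End.exists_eigenvalue φ
  obtain ⟨a, ha⟩ := hc.exists_hasEigenvector
  have ha1 : M *ᵥ a = c • a := by rw [← hφv]; exact ha.apply_eq_smul
  have h1 : (⨆ μ, φ.eigenspace μ) ≤ Submodule.span ℂ {a} := by
    refine iSup_le fun μ b hb => ?_
    by_contra h
    refine hcon a b c μ ha.2 h ha1 ?_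
    rw [← hφv]
    exact Module.End.mem_eigenspace_iff.1 hb
  rw [htop, top_le_iff] at h1
  have h2 := finrank_span_singleton (K := ℂ) ha.2
  rw [h1, finrank_top, Module.finrank_fin_fun] at h2
  omega

variable {G : Type} [Group G] {n : ℕ}

namespace LSit

variable (S : LSit G n)

theorem card_dvd [Finite G] (hn : 2 ≤ n) {f : MvPolynomial (Fin n) ℂ} {d : ℕ}
    (hf : f.IsHomogeneous d) (hd : 0 < d) (hI : S.I = Ideal.span {f}) (hZ : scal S.ρ = ⊥) :
    Nat.card G ∣ d := by
  classical
  have hmem : ∀ v : Fin n → ℂ, eval v f = 0 → ∀ p ∈ S.I, eval v p = 0 := by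
    intro v hv p hp
    rw [hI, Ideal.mem_span_singleton] at hp
    obtain ⟨q, rfl⟩ := hp
    rw [map_mul, hv, zero_mul]
  have hone : ∀ (g : G) (c : ℂ), S.ρ g = c • 1 → g = 1 := by
    intro g c h
    have h1 : g ∈ scal S.ρ := ⟨c, h⟩
    rw [hZ] at h1
    exact Subgroup.mem_bot.1 h1
  -- no eigenvector is a zero of `f`
  have hev : ∀ g : G, g ≠ 1 → ∀ (v : Fin n → ℂ) (c : ℂ), v ≠ 0 → S.ρ g *ᵥ v = c • v → eval v f ≠ 0 := by
    intro g hg v c hv h h0
    exact hg (hone g c (S.free v hv (hmem v h0) g c h))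
  -- eigenspaces have dimension at most one
  have hone' : ∀ g : G, g ≠ 1 → ∀ (a b : Fin n → ℂ) (c : ℂ), a ≠ 0 → S.ρ g *ᵥ a = c • a → S.ρ g *ᵥ b = c • b →
      b ∈ Submodule.span ℂ {a} := by
    intro g hg a b c ha hga hgb
    by_contra hb
    obtain ⟨τ, hτ⟩ := exists_root hf hd (a := b) (hev g hg a c ha hga)
    refine hev g hg (b + τ • a) c ?_ ?_ hτ
    · intro h
      apply hb
      refine Submodule.mem_span_singleton.2 ⟨-τ, ?_⟩
      rw [neg_smul]
      exact (eq_neg_of_add_eq_zero_left h).symm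
    · rw [Matrix.mulVec_add, Matrix.mulVec_smul, hga, hgb, smul_add, smul_comm]
  -- `f` is semi-invariant
  have hsemi : ∀ g : G, ∃ c : ℂ, ∀ v : Fin n → ℂ, eval (S.ρ g *ᵥ v) f = c * eval v f := by
    intro g
    have h1 := S.stable g f (by rw [hI]; exact Ideal.mem_span_singleton_self f)
    rw [hI, Ideal.mem_span_singleton] at h1
    obtain ⟨q, hq⟩ := h1
    have h2 : sub (S.ρ g) f = f * homogeneousComponent 0 q := by
      have h3 := comp_mul hf q 0
      rw [← hq, add_zero, homogeneousComponent_of_mem (show sub (S.ρ g) f ∈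
        homogeneousSubmodule (Fin n) ℂ d from sub_hom _ hf), if_pos rfl] at h3
      exact h3
    refine ⟨coeff 0 q, fun v => ?_⟩
    rw [← eval_sub, h2, map_mul, homogeneousComponent_zero, eval_C, mul_comm]
  have hG0 : Nat.card G ≠ 0 := Nat.card_pos.ne'
  rw [← Nat.factorization_prime_le_iff_dvd hG0 hd.ne']
  intro p hp
  have _ : Fact p.Prime := ⟨hp⟩
  have P : Sylow p G := default
  have hPc := P.card_eq_multiplicity
  have key : Nat.card P ∣ d := by
    rcases subsingleton_or_nontrivial P with hs | hs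
    · rw [Nat.card_unique]
      exact one_dvd d
    -- a central element
    have hc := P.isPGroup'.center_nontrivial
    obtain ⟨⟨z, hz⟩, hz1⟩ := exists_ne (1 : Subgroup.center P)
    have hzg : (z : G) ≠ 1 := by
      intro h
      apply hz1
      exact Subtype.ext (Subtype.ext h)
    obtain ⟨a, b, ca, cb, ha0, hab, ha, hb⟩ := two_eigen hn (M := S.ρ z)
      (m := Nat.card G) hG0 (by rw [← map_pow, pow_card_eq_one', map_one])
    have hb0 : b ≠ 0 := by
      rintro rfl
      exact hab (Submodule.zero_mem _)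
    have hcomm : ∀ h : P, S.ρ (z : G) * S.ρ h = S.ρ h * S.ρ z := by
      intro h
      rw [← map_mul, ← map_mul]
      congr 1
      exact congrArg Subtype.val (Subgroup.mem_center_iff.1 hz h).symm
    -- `P` acts on the two lines by characters
    have hchar : ∀ (a : Fin n → ℂ) (c : ℂ), a ≠ 0 → S.ρ (z : G) *ᵥ a = c • a →
        ∃ A : P →* ℂ, ∀ h : P, S.ρ h *ᵥ a = A h • a := by
      intro a c ha0 ha
      have h1 : ∀ h : P, ∃ α : ℂ, S.ρ h *ᵥ a = α • a := by
        intro h
        have h2 : S.ρ (z : G) *ᵥ (S.ρ h *ᵥ a) = c • (S.ρ h *ᵥ a) := by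
          rw [Matrix.mulVec_mulVec, hcomm, ← Matrix.mulVec_mulVec, ha, Matrix.mulVec_smul]
        obtain ⟨α, hα⟩ := Submodule.mem_span_singleton.1 (hone' z hzg a _ c ha0 ha h2)
        exact ⟨α, hα.symm⟩
      choose α hα using h1
      have hinj : ∀ x y : ℂ, x • a = y • a → x = y := fun x y h => smul_left_injective ℂ ha0 h
      refine ⟨⟨⟨α, ?_⟩, ?_⟩, hα⟩
      · apply hinj
        rw [← hα, OneMemClass.coe_one, map_one, Matrix.one_mulVec, one_smul]
      · intro x y
        apply hinj
        show α (x * y) • a = (α x * α y) • a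
        rw [← hα, Subgroup.coe_mul, map_mul, ← Matrix.mulVec_mulVec, hα, Matrix.mulVec_smul, hα,
          smul_smul, mul_comm]
    obtain ⟨A, hA⟩ := hchar a ca ha0 ha
    obtain ⟨B, hB⟩ := hchar b cb hb0 hb
    set ψ : P →* ℂˣ := A.toHomUnits / B.toHomUnits with hψ
    have hψinj : Function.Injective ψ := by
      rw [injective_iff_map_eq_one]
      intro h hh
      rw [hψ, MonoidHom.div_apply, div_eq_one] at hh
      have h1 : A h = B h := congrArg Units.val hh
      by_contra hne
      have hne' : (h : G) ≠ 1 := fun h' => hne (Subtype.ext h')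
      refine hab (hone' h hne' a b (A h) ha0 (hA h) ?_)
      rw [h1]
      exact hB h
    have hψd : ∀ h, ψ h ∈ rootsOfUnity d ℂ := by
      intro h
      rw [mem_rootsOfUnity, hψ, MonoidHom.div_apply, div_pow, div_eq_one]
      ext
      rw [Units.val_pow_eq_pow_val, Units.val_pow_eq_pow_val]
      show A h ^ d = B h ^ d
      obtain ⟨c, hc⟩ := hsemi h
      have h1 := hc a
      have h2 := hc b
      rw [hA, eval_smul2 hf] at h1
      rw [hB, eval_smul2 hf] at h2
      rw [mul_right_cancel₀ (hev z hzg a ca ha0 ha) h1,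
        mul_right_cancel₀ (hev z hzg b cb hb0 hb) h2]
    have h1 := Subgroup.card_dvd_of_injective (ψ.codRestrict (rootsOfUnity d ℂ) hψd) (by
      intro x y h
      exact hψinj (congrArg Subtype.val h))
    have h2 : NeZero d := ⟨hd.ne'⟩
    have h3 : Nat.card (rootsOfUnity d ℂ) = d :=
      (Complex.isPrimitiveRoot_exp d hd.ne').card_rootsOfUnity
    rw [h3] at h1
    exact h1
  rw [hPc] at key
  exact (hp.pow_dvd_iff_le_factorization hd.ne').1 key

end LSit

end Pool.Agent.K3h94.FQ
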