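import Pool.Agent.K3h94.FQ.Rep

/-!
# Semi-invariant forms of a small group: base points, points and tangent vectors
-/

set_option autoImplicit false

namespace Pool.Agent.K3h94.FQ

open MvPolynomial Module Matrix Pool.Agent.TH144.MB

variable {G : Type} [Group G] {n : ℕ}

namespace LSit

variable (S : LSit G n)

/-- the forms of degree `e` on which `G` acts by `χ` -/
def Sec (e : ℕ) (χ : G →* ℂˣ) (F : MvPolynomial (Fin n) ℂ) : Prop :=
  F.IsHomogeneous e ∧ ∀ (g : G) (x : Fin n → ℂ), eval (S.ρ g *ᵥ x) F = χ g * eval x F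

/-- the scalars act on forms of degree `e` by `χ` -/
def Comp (e : ℕ) (χ : G →* ℂˣ) : Prop := ∀ (g : G) (c : ℂ), S.ρ g = c • 1 → (χ g : ℂ) = c ^ e

/-- projection to the semi-invariants -/
noncomputable def avg [Fintype G] (χ : G →* ℂˣ) (h : MvPolynomial (Fin n) ℂ) :
    MvPolynomial (Fin n) ℂ := ∑ g, C (((χ g)⁻¹ : ℂˣ) : ℂ) * sub (S.ρ g) h

theorem eval_avg [Fintype G] (χ : G →* ℂˣ) (h : MvPolynomial (Fin n) ℂ) (x : Fin n → ℂ) :
    eval x (S.avg χ h) = ∑ g, (((χ g)⁻¹ : ℂˣ) : ℂ) * eval (S.ρ g *ᵥ x) h := by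
  simp only [avg, map_sum, map_mul, eval_C, eval_sub]

theorem dv_avg [Fintype G] (χ : G →* ℂˣ) (h : MvPolynomial (Fin n) ℂ) (x w : Fin n → ℂ) :
    dv (S.avg χ h) x w = ∑ g, (((χ g)⁻¹ : ℂˣ) : ℂ) * dv h (S.ρ g *ᵥ x) (S.ρ g *ᵥ w) := by
  simp only [avg, dv_sum, dv_C_mul, dv_sub']

theorem sec_avg [Fintype G] {e : ℕ} (χ : G →* ℂˣ) {h : MvPolynomial (Fin n) ℂ}
    (hh : h.IsHomogeneous e) : S.Sec e χ (S.avg χ h) := by
  refine ⟨IsHomogeneous.sum _ _ _ fun g _ => (sub_hom _ hh).C_mul _, fun g x => ?_⟩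
  rw [eval_avg, eval_avg, Finset.mul_sum]
  refine Fintype.sum_bijective (fun k => k * g) (Group.mulRight_bijective g) _ _ fun k => ?_
  have h6 : (χ g : ℂ) * (((χ g)⁻¹ : ℂˣ) : ℂ) = 1 := Units.mul_inv _
  rw [Matrix.mulVec_mulVec, ← map_mul, map_mul χ, mul_inv, Units.val_mul]
  linear_combination (-(eval (S.ρ (k * g) *ᵥ x) h * (((χ k)⁻¹ : ℂˣ) : ℂ))) * h6

theorem dv_smul_left {h : MvPolynomial (Fin n) ℂ} {e : ℕ} (hh : h.IsHomogeneous e) {c : ℂ}
    (v w : Fin n → ℂ) : dv h (c • v) (c • w) = c ^ e * dv h v w := by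
  have h1 : sub (c • (1 : Matrix (Fin n) (Fin n) ℂ)) h = C (c ^ e) * h := by
    apply MvPolynomial.funext
    intro x
    rw [eval_sub, Matrix.smul_mulVec, Matrix.one_mulVec, map_mul, eval_C]
    exact eval_smul' hh c x
  have h2 := dv_sub' (c • (1 : Matrix (Fin n) (Fin n) ℂ)) h v w
  rw [h1, dv_C_mul, Matrix.smul_mulVec, Matrix.one_mulVec, Matrix.smul_mulVec,
    Matrix.one_mulVec] at h2
  exact h2.symm

theorem eval_smul2 {h : MvPolynomial (Fin n) ℂ} {e : ℕ} (hh : h.IsHomogeneous e) (c : ℂ)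
    (v : Fin n → ℂ) : eval (c • v) h = c ^ e * eval v h := eval_smul' hh c v

theorem notMem_scal {g : G} : (g : G ⧸ scal S.ρ) ≠ ((1 : G) : G ⧸ scal S.ρ) ↔ g ∉ scal S.ρ := by
  rw [Ne, not_iff_not, eq_comm, QuotientGroup.eq]
  simp

theorem eval_avg_zero [Fintype G] {e : ℕ} (χ : G →* ℂˣ) {h : MvPolynomial (Fin n) ℂ}
    (hh : h.IsHomogeneous e) {v : Fin n → ℂ} (hv0 : v ≠ 0) (hv : ∀ i, eval (S.pt v i) h = 0) :
    eval v (S.avg χ h) = 0 := by
  rw [eval_avg]
  refine Finset.sum_eq_zero fun g _ => ?_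
  obtain ⟨c, _, hc⟩ := S.act_eq hv0 g
  rw [hc, eval_smul2 hh, hv, mul_zero, mul_zero]

theorem eval_avg_ne [Fintype G] {e : ℕ} {χ : G →* ℂˣ} (hχ : S.Comp e χ)
    {h : MvPolynomial (Fin n) ℂ} (hh : h.IsHomogeneous e) {v : Fin n → ℂ} (hv0 : v ≠ 0)
    (hv : ∀ i, i ≠ ((1 : G) : G ⧸ scal S.ρ) → eval (S.pt v i) h = 0) (hne : eval v h ≠ 0) :
    eval v (S.avg χ h) ≠ 0 := by
  classical
  have h1 : ∀ g : G, (((χ g)⁻¹ : ℂˣ) : ℂ) * eval (S.ρ g *ᵥ v) h
      = if g ∈ scal S.ρ then eval v h else 0 := by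
    intro g
    split_ifs with hg
    · obtain ⟨c, hc⟩ := hg
      rw [hc, Matrix.smul_mulVec, Matrix.one_mulVec, eval_smul2 hh, ← hχ g c hc, ← mul_assoc,
        Units.inv_mul, one_mul]
    · obtain ⟨c, _, hc⟩ := S.act_eq hv0 g
      rw [hc, eval_smul2 hh, hv _ (S.notMem_scal.2 hg), mul_zero, mul_zero]
  rw [eval_avg, Finset.sum_congr rfl fun g _ => h1 g, ← Finset.sum_filter, Finset.sum_const,
    nsmul_eq_mul]
  refine mul_ne_zero (Nat.cast_ne_zero.2 ?_) hne
  exact (Finset.card_pos.2 ⟨1, Finset.mem_filter.2 ⟨Finset.mem_univ _, one_mem _⟩⟩).ne'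

theorem dv_avg_ne [Fintype G] {e : ℕ} {χ : G →* ℂˣ} (hχ : S.Comp e χ)
    {h : MvPolynomial (Fin n) ℂ} (hh : h.IsHomogeneous e) {v u : Fin n → ℂ}
    (hv : ∀ g, g ∉ scal S.ρ → dv h (S.ρ g *ᵥ v) (S.ρ g *ᵥ u) = 0) (hne : dv h v u ≠ 0) :
    dv (S.avg χ h) v u ≠ 0 := by
  classical
  have h1 : ∀ g : G, (((χ g)⁻¹ : ℂˣ) : ℂ) * dv h (S.ρ g *ᵥ v) (S.ρ g *ᵥ u)
      = if g ∈ scal S.ρ then dv h v u else 0 := by
    intro g
    split_ifs with hg
    · obtain ⟨c, hc⟩ := hg
      rw [hc, Matrix.smul_mulVec, Matrix.one_mulVec, Matrix.smul_mulVec, Matrix.one_mulVec,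
        dv_smul_left hh, ← hχ g c hc, ← mul_assoc, Units.inv_mul, one_mul]
    · rw [hv g hg, mul_zero]
  rw [dv_avg, Finset.sum_congr rfl fun g _ => h1 g, ← Finset.sum_filter, Finset.sum_const,
    nsmul_eq_mul]
  refine mul_ne_zero (Nat.cast_ne_zero.2 ?_) hne
  exact (Finset.card_pos.2 ⟨1, Finset.mem_filter.2 ⟨Finset.mem_univ _, one_mem _⟩⟩).ne'

theorem pt_one {z : Fin n → ℂ} (hz : z ≠ 0) :
    ∃ c : ℂ, c ≠ 0 ∧ z = c • S.pt z ((1 : G) : G ⧸ scal S.ρ) := by
  obtain ⟨c, hc, h⟩ := S.act_eq hz 1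
  rw [map_one, Matrix.one_mulVec] at h
  exact ⟨c, hc, h⟩

theorem pt_mem_iff {z x : Fin n → ℂ} (hz : z ≠ 0) :
    x ∈ Submodule.span ℂ {z} ↔ x ∈ Submodule.span ℂ {S.pt z ((1 : G) : G ⧸ scal S.ρ)} := by
  obtain ⟨c, hc, h⟩ := S.pt_one hz
  conv_lhs => rw [h]
  rw [Submodule.span_singleton_smul_eq (IsUnit.mk0 c hc)]

theorem finrank_pair (a b : Fin n → ℂ) : finrank ℂ (Submodule.span ℂ {a, b}) ≤ 2 := by
  classical
  have h1 := finrank_span_finset_le_card (R := ℂ) ({a, b} : Finset (Fin n → ℂ))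
  have h2 : (({a, b} : Finset (Fin n → ℂ)) : Set (Fin n → ℂ)) = {a, b} := by simp
  rw [h2] at h1
  exact h1.trans Finset.card_le_two

/-- No base points: the case of a group with at most `2 e + 1` elements modulo scalars. -/
theorem base [Finite G] {r e : ℕ} (hr : TopBound S.I r) (hre : r ≤ e) {χ : G →* ℂˣ}
    (hχ : S.Comp e χ) (hG : (scal S.ρ).index ≤ 2 * e + 1) {y : Fin n → ℂ} (hy0 : y ≠ 0)
    (hy : ∀ p ∈ S.I, eval y p = 0) : ∃ F, S.Sec e χ F ∧ eval y F ≠ 0 := by
  classical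
  have _ := Fintype.ofFinite G
  have _ := Fintype.ofFinite (G ⧸ scal S.ρ)
  have hidx : (scal S.ρ).index = Fintype.card (G ⧸ scal S.ρ) := by
    rw [Subgroup.index, Nat.card_eq_fintype_card]
  set o : G ⧸ scal S.ρ := ((1 : G) : G ⧸ scal S.ρ) with ho
  obtain ⟨F, hF, hFy, hF0, -⟩ := exists_form2 hy0 (fun i => S.pt y i) e (Finset.univ.erase o)
    (by
      intro q hq
      rw [S.pt_mem_iff hy0]
      exact S.pt_notMem hy0 hy (Finset.ne_of_mem_erase hq).symm) (by
      rw [Finset.card_erase_of_mem (Finset.mem_univ _), Finset.card_univ, ← hidx]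
      omega) (by
      intro q hq R hR hRm
      by_contra hcon
      push Not at hcon
      have hoR : o ∉ R := fun h => absurd (hR h) (Finset.notMem_erase _ _)
      have h1 := S.plane_core (κ := Unit) hr (fun _ => y) (fun _ => hy0) (fun _ => hy)
        (fun k l h => absurd (Subsingleton.elim k l) h) (finrank_pair y (S.pt y q))
        (fun _ => insert o R) (by
          intro k i hi
          rcases Finset.mem_insert.1 hi with rfl | hi
          · obtain ⟨c, hc, h⟩ := S.pt_one hy0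
            have h2 : S.pt y o = c⁻¹ • y := by
              conv_rhs => rw [h]
              rw [smul_smul, inv_mul_cancel₀ hc, one_smul]
            rw [h2]
            exact Submodule.smul_mem _ _ (Submodule.subset_span (by simp))
          · exact hRm i hi) (k0 := ()) (by
          rw [Finset.card_insert_of_notMem hoR]
          omega) (e := 1) (Or.inl rfl)
      rw [Finset.card_insert_of_notMem hoR] at h1
      simp only [Finset.univ_unique, Finset.sum_const, Finset.card_singleton, smul_eq_mul] at h1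
      omega)
  refine ⟨S.avg χ F, S.sec_avg χ hF, S.eval_avg_ne hχ hF hy0 (fun i hi => ?_) hFy⟩
  exact hF0 i (Finset.mem_erase.2 ⟨hi, Finset.mem_univ _⟩)

/-- Points are separated. -/
theorem points [Finite G] {r e : ℕ} (hr : TopBound S.I r) (hre : r + 1 ≤ e) {χ : G →* ℂˣ}
    (hχ : S.Comp e χ) (hG : (scal S.ρ).index ≤ e) {y z : Fin n → ℂ} (hy0 : y ≠ 0)
    (hy : ∀ p ∈ S.I, eval y p = 0) (hz0 : z ≠ 0) (hz : ∀ p ∈ S.I, eval z p = 0)
    (hyz : ∀ (g : G) (c : ℂ), S.ρ g *ᵥ y ≠ c • z) :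
    ∃ F, S.Sec e χ F ∧ eval y F = 0 ∧ eval z F ≠ 0 := by
  classical
  have _ := Fintype.ofFinite G
  have _ := Fintype.ofFinite (G ⧸ scal S.ρ)
  have hidx : (scal S.ρ).index = Fintype.card (G ⧸ scal S.ρ) := by
    rw [Subgroup.index, Nat.card_eq_fintype_card]
  set o : G ⧸ scal S.ρ := ((1 : G) : G ⧸ scal S.ρ) with ho
  have hyz1 : ∀ i j, S.pt y j ∉ Submodule.span ℂ {S.pt z i} := by
    intro i j h
    obtain ⟨c, hc⟩ := Submodule.mem_span_singleton.1 h
    refine hyz (i.out⁻¹ * j.out) c ?_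
    have h1 : S.ρ j.out *ᵥ y = c • (S.ρ i.out *ᵥ z) := hc.symm
    rw [map_mul, ← Matrix.mulVec_mulVec, h1, Matrix.mulVec_smul, Matrix.mulVec_mulVec, ← map_mul,
      inv_mul_cancel, map_one, Matrix.one_mulVec]
  have hyz2 : ∀ i j, S.pt z j ∉ Submodule.span ℂ {S.pt y i} := by
    intro i j h
    obtain ⟨c, hc⟩ := Submodule.mem_span_singleton.1 h
    have hc0 : c ≠ 0 := by
      rintro rfl
      exact S.pt_ne hz0 j (by rw [← hc, zero_smul])
    exact hyz1 j i (Submodule.mem_span_singleton.2 ⟨c⁻¹, by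
      rw [← hc, smul_smul, inv_mul_cancel₀ hc0, one_smul]⟩)
  let ω : Bool → Fin n → ℂ := fun k => if k then z else y
  have hω0 : ∀ k, ω k ≠ 0 := by
    rintro (_ | _)
    · exact hy0
    · exact hz0
  have hω : ∀ k, ∀ p ∈ S.I, eval (ω k) p = 0 := by
    rintro (_ | _)
    · exact hy
    · exact hz
  have horb : ∀ k l, k ≠ l → ∀ i j, S.pt (ω l) j ∉ Submodule.span ℂ {S.pt (ω k) i} := by
    rintro (_ | _) (_ | _) h i j
    · exact absurd rfl h
    · exact hyz2 i j
    · exact hyz1 i j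
    · exact absurd rfl h
  obtain ⟨F, hF, hFy, hF0, -⟩ := exists_form2 hz0
    (fun x : Bool × (G ⧸ scal S.ρ) => S.pt (ω x.1) x.2) e (Finset.univ.erase (true, o))
    (by
      rintro ⟨k, i⟩ hq
      rw [S.pt_mem_iff hz0]
      rcases k with _ | _
      · exact hyz1 _ _
      · refine S.pt_notMem hz0 hz ?_
        rintro rfl
        exact Finset.ne_of_mem_erase hq rfl) (by
      rw [Finset.card_erase_of_mem (Finset.mem_univ _), Finset.card_univ, Fintype.card_prod,
        Fintype.card_bool, ← hidx]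
      omega) (by
      intro q hq R hR hRm
      by_contra hcon
      push Not at hcon
      have hoR : (true, o) ∉ R := fun h => absurd (hR h) (Finset.notMem_erase _ _)
      set A : Bool → Finset (G ⧸ scal S.ρ) := fun k =>
        Finset.univ.filter fun i => (k, i) ∈ insert (true, o) R with hA
      have hAc : ∑ k, (A k).card = R.card + 1 := by
        rw [← Finset.card_insert_of_notMem hoR]
        rw [Finset.card_eq_sum_card_fiberwise (f := Prod.fst) (s := insert (true, o) R)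
          (t := Finset.univ) (fun x _ => Finset.mem_univ _)]
        refine Finset.sum_congr rfl fun k _ => ?_
        refine Finset.card_bij (fun i _ => (k, i)) ?_ ?_ ?_
        · intro i hi
          exact Finset.mem_filter.2 ⟨(Finset.mem_filter.1 hi).2, rfl⟩
        · intro i _ j _ hij
          exact congrArg Prod.snd hij
        · rintro ⟨k', i⟩ hi
          obtain ⟨h1, h2⟩ := Finset.mem_filter.1 hi
          have h2' : k' = k := h2
          subst h2'
          exact ⟨i, Finset.mem_filter.2 ⟨Finset.mem_univ _, h1⟩, rfl⟩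
      have hAm : ∀ k, ∀ i ∈ A k, S.pt (ω k) i ∈ Submodule.span ℂ {z, S.pt (ω q.1) q.2} := by
        intro k i hi
        rcases Finset.mem_insert.1 (Finset.mem_filter.1 hi).2 with h | h
        · obtain ⟨rfl, rfl⟩ := Prod.mk.inj h
          obtain ⟨c, hc, h⟩ := S.pt_one hz0
          have h2 : S.pt (ω true) o = c⁻¹ • z := by
            show S.pt z o = _
            conv_rhs => rw [h]
            rw [smul_smul, inv_mul_cancel₀ hc, one_smul]
          rw [h2]
          exact Submodule.smul_mem _ _ (Submodule.subset_span (by simp))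
        · exact hRm (k, i) h
      obtain ⟨k0, hk0⟩ : ∃ k, (scal S.ρ).index + 2 ≤ 2 * (A k).card := by
        by_contra h
        push Not at h
        have h1 := h true
        have h2 := h false
        rw [Fintype.sum_bool] at hAc
        omega
      have h1 := S.plane_core hr ω hω0 hω horb (finrank_pair z _) A hAm hk0 (e := 1)
        (Or.inl rfl)
      rw [hAc] at h1
      omega)
  refine ⟨S.avg χ F, S.sec_avg χ hF, ?_, ?_⟩
  · refine S.eval_avg_zero χ hF hy0 fun i => ?_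
    exact hF0 (false, i) (Finset.mem_erase.2 ⟨by simp, Finset.mem_univ _⟩)
  · refine S.eval_avg_ne hχ hF hz0 (fun i hi => ?_) hFy
    have h1 : ((true, i) : Bool × (G ⧸ scal S.ρ)) ≠ (true, o) := fun h => hi (Prod.mk.inj h).2
    exact hF0 (true, i) (Finset.mem_erase.2 ⟨h1, Finset.mem_univ _⟩)

theorem act_eq' (g : G) : ∃ c : ℂ, ∀ z : Fin n → ℂ, z ≠ 0 → c ≠ 0 ∧
    S.ρ g *ᵥ z = c • S.pt z (g : G ⧸ scal S.ρ) := by
  obtain ⟨⟨h, c, hc⟩, hh⟩ := QuotientGroup.mk_out_eq_mul (scal S.ρ) g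
  refine ⟨c⁻¹, fun z hz => ?_⟩
  have hc0 := S.scal_ne hc hz
  refine ⟨inv_ne_zero hc0, ?_⟩
  have hh' : (g : G ⧸ scal S.ρ).out = g * h := hh
  rw [pt, hh', map_mul, hc, mul_smul_comm, mul_one, Matrix.smul_mulVec, smul_smul,
    inv_mul_cancel₀ hc0, one_smul]

/-- Tangent vectors are separated. -/
theorem tangents [Finite G] {r e : ℕ} (hr : TopBound S.I r) (hre : r + 1 ≤ e) {χ : G →* ℂˣ}
    (hχ : S.Comp e χ) (hG : (scal S.ρ).index ≤ e) {y u : Fin n → ℂ} (hy0 : y ≠ 0)
    (hy : ∀ p ∈ S.I, eval y p = 0) (hu : ∀ p ∈ S.I, dv p y u = 0)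
    (hne : u ∉ Submodule.span ℂ {y}) :
    ∃ F, S.Sec e χ F ∧ eval y F = 0 ∧ dv F y u ≠ 0 := by
  classical
  have _ := Fintype.ofFinite G
  have _ := Fintype.ofFinite (G ⧸ scal S.ρ)
  have hidx : (scal S.ρ).index = Fintype.card (G ⧸ scal S.ρ) := by
    rw [Subgroup.index, Nat.card_eq_fintype_card]
  have hu0 : u ≠ 0 := by
    rintro rfl
    exact hne (Submodule.zero_mem _)
  set o : G ⧸ scal S.ρ := ((1 : G) : G ⧸ scal S.ρ) with ho
  obtain ⟨co, hco, hyo⟩ := S.pt_one hy0
  have hTc : (Finset.univ.erase o).card = (scal S.ρ).index - 1 := by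
    rw [Finset.card_erase_of_mem (Finset.mem_univ _), Finset.card_univ, ← hidx]
  have hui : ∀ i, S.pt u i ∉ Submodule.span ℂ {S.pt y i} := by
    intro i h
    obtain ⟨c, hc⟩ := Submodule.mem_span_singleton.1 h
    apply hne
    refine Submodule.mem_span_singleton.2 ⟨c, ?_⟩
    have h1 : S.ρ i.out⁻¹ *ᵥ (c • (S.ρ i.out *ᵥ y)) = S.ρ i.out⁻¹ *ᵥ (S.ρ i.out *ᵥ u) :=
      congrArg _ hc
    rw [Matrix.mulVec_smul, Matrix.mulVec_mulVec, Matrix.mulVec_mulVec, ← map_mul, inv_mul_cancel,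
      map_one, Matrix.one_mulVec, Matrix.one_mulVec] at h1
    exact h1
  obtain ⟨F, hF, hFy, hF1⟩ := exists_double hy0 (S.pt y) (S.pt u) (e - 1) (Finset.univ.erase o)
    (by
      intro q hq
      rw [S.pt_mem_iff hy0]
      exact S.pt_notMem hy0 hy (Finset.ne_of_mem_erase hq).symm) (by omega) (by
      intro q hq V hV P hP hVm hPm
      set m := Submodule.span ℂ {y, S.pt y q} with hm
      have hm2 : finrank ℂ m ≤ 2 := finrank_pair _ _
      have hVP : Disjoint V P := by
        rw [Finset.disjoint_left]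
        intro i h1 h2
        exact (hPm i h2).2 (hVm i h1).2
      have hoVP : o ∉ V ∪ P := by
        intro h
        rcases Finset.mem_union.1 h with h | h
        · exact absurd (hV h) (Finset.notMem_erase _ _)
        · exact absurd (hP h) (Finset.notMem_erase _ _)
      set A := insert o (V ∪ P) with hA
      have hAc : A.card = V.card + P.card + 1 := by
        rw [hA, Finset.card_insert_of_notMem hoVP, Finset.card_union_of_disjoint hVP]
      have hAm : ∀ i ∈ A, S.pt y i ∈ m := by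
        intro i hi
        rcases Finset.mem_insert.1 hi with rfl | hi
        · have h2 : S.pt y o = co⁻¹ • y := by
            conv_rhs => rw [hyo]
            rw [smul_smul, inv_mul_cancel₀ hco, one_smul]
          rw [h2]
          exact Submodule.smul_mem _ _ (Submodule.subset_span (by simp))
        · rcases Finset.mem_union.1 hi with hi | hi
          · exact (hVm i hi).1
          · exact (hPm i hi).1
      by_cases hlt : 2 * A.card < (scal S.ρ).index + 2
      · omega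
      push Not at hlt
      have hst := S.stab hy0 hy hm2 A hAm hlt
      by_cases hum : u ∈ m
      · have hPe : P = ∅ := by
          rw [Finset.eq_empty_iff_forall_notMem]
          intro i hi
          exact (hPm i hi).2 (hst _ u hum)
        have h1 := S.plane_core (κ := Unit) hr (fun _ => y) (fun _ => hy0) (fun _ => hy)
          (fun k l h => absurd (Subsingleton.elim k l) h) hm2 (fun _ => A) (fun _ => hAm)
          (k0 := ()) hlt (e := 2) (Or.inr ⟨rfl, by
            intro _ i hi b hb p hp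
            have h2 := plane_eq hm2 (hAm i hi) (hst i.out u hum) (S.pt_ne hy0 i) (hui i)
            rw [h2] at hb
            obtain ⟨c, d, rfl⟩ := Submodule.mem_span_pair.1 hb
            rw [dv_add_right, dv_smul_right, dv_smul_right,
              dv_self S.hom (S.pt_zero hy i) p hp, mul_zero, zero_add]
            have h3 : dv p (S.pt y i) (S.ρ i.out *ᵥ u) = 0 := by
              rw [pt, ← dv_sub']
              exact hu _ (S.stable _ p hp)
            show d * dv p (S.pt y i) (S.ρ i.out *ᵥ u) = 0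
            rw [h3, mul_zero]⟩)
        simp only [Finset.univ_unique, Finset.sum_const, Finset.card_singleton, smul_eq_mul] at h1
        rw [hPe, Finset.card_empty] at hAc ⊢
        omega
      · have hVe : V = ∅ := by
          rw [Finset.eq_empty_iff_forall_notMem]
          intro i hi
          apply hum
          have h1 := hst i.out⁻¹ _ (hVm i hi).2
          rw [pt, Matrix.mulVec_mulVec, ← map_mul, inv_mul_cancel, map_one,
            Matrix.one_mulVec] at h1
          exact h1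
        have h1 := Finset.card_le_card hP
        rw [hVe, Finset.card_empty]
        omega)
  obtain ⟨a, ha, ha'⟩ := exists_lin_of_notMem hne
  have hay : eval y (lin a) = 0 := ha' y (Submodule.mem_span_singleton_self _)
  have hh : (lin a * F).IsHomogeneous e := by
    have h1 := (lin_hom a).mul hF
    rwa [show 1 + (e - 1) = e by omega] at h1
  refine ⟨S.avg χ (lin a * F), S.sec_avg χ hh, ?_, ?_⟩
  · refine S.eval_avg_zero χ hh hy0 fun i => ?_
    rw [map_mul]
    by_cases hi : i = o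
    · have h2 : S.pt y i = co⁻¹ • y := by
        rw [hi]
        conv_rhs => rw [hyo]
        rw [smul_smul, inv_mul_cancel₀ hco, one_smul]
      rw [h2, eval_smul2 (lin_hom a), hay, mul_zero, zero_mul]
    · rw [(hF1 i (Finset.mem_erase.2 ⟨hi, Finset.mem_univ _⟩)).1, mul_zero]
  · refine S.dv_avg_ne hχ hh (fun g hg => ?_) ?_
    · obtain ⟨c, hc⟩ := S.act_eq' g
      rw [(hc y hy0).2, (hc u hu0).2, dv_smul_left hh]
      have hi : (g : G ⧸ scal S.ρ) ∈ Finset.univ.erase o :=
        Finset.mem_erase.2 ⟨S.notMem_scal.2 hg, Finset.mem_univ _⟩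
      rw [dv_mul, (hF1 _ hi).1, (hF1 _ hi).2, mul_zero, mul_zero, add_zero, mul_zero]
    · rw [dv_mul, dv_lin, hay, zero_mul, add_zero]
      exact mul_ne_zero ha hFy

end LSit

end Pool.Agent.K3h94.FQ
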