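import Pool.Agent.K3h94.FQ.Cover

/-!
# Finite linear groups acting on the zero set of a homogeneous ideal

`plane_core`: a plane `m` which contains more than half of an orbit (and at least one more point) is
stable under the group; an eigenvector in `m` of an element which is not a scalar is not a zero of the
ideal, so that `m` contains few zeros of the ideal.
-/

set_option autoImplicit false

namespace Pool.Agent.K3h94.FQ

open MvPolynomial Module Matrix Pool.Agent.TH144.MB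

section
variable {n : ℕ}

/-- the polynomial `x ↦ p (M x)` -/
noncomputable def sub (M : Matrix (Fin n) (Fin n) ℂ) :
    MvPolynomial (Fin n) ℂ →ₐ[ℂ] MvPolynomial (Fin n) ℂ := bind₁ fun i => ∑ j, C (M i j) * X j

theorem sub_X (M : Matrix (Fin n) (Fin n) ℂ) (i : Fin n) :
    sub M (X i) = lin (M i) := by
  simp [sub, lin]

theorem eval_lin_row (M : Matrix (Fin n) (Fin n) ℂ) (i : Fin n) (x : Fin n → ℂ) :
    eval x (lin (M i)) = (M *ᵥ x) i := by
  rw [eval_lin]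
  rfl

theorem eval_sub (M : Matrix (Fin n) (Fin n) ℂ) (p : MvPolynomial (Fin n) ℂ) (x : Fin n → ℂ) :
    eval x (sub M p) = eval (M *ᵥ x) p := by
  induction p using MvPolynomial.induction_on with
  | C c => simp [sub]
  | add p q hp hq => rw [map_add, map_add, map_add, hp, hq]
  | mul_X p j hp => rw [map_mul, map_mul, map_mul, hp, eval_X, sub_X, eval_lin_row]

theorem dv_sub' (M : Matrix (Fin n) (Fin n) ℂ) (p : MvPolynomial (Fin n) ℂ)
    (x w : Fin n → ℂ) : dv (sub M p) x w = dv p (M *ᵥ x) (M *ᵥ w) := by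
  have hX : ∀ (j : Fin n) (v w : Fin n → ℂ), dv (X j) v w = w j := by
    intro j v w
    have h := dv_X_mul j (1 : MvPolynomial (Fin n) ℂ) v w
    rw [mul_one] at h
    rw [h]
    simp [dv]
  induction p using MvPolynomial.induction_on with
  | C c => simp [sub, dv]
  | add p q hp hq => rw [map_add, dv_add, dv_add, hp, hq]
  | mul_X p j hp =>
    rw [map_mul, dv_mul, dv_mul, hp, eval_sub, eval_sub, eval_X, sub_X, dv_lin, eval_lin_row, hX]

theorem sub_hom (M : Matrix (Fin n) (Fin n) ℂ) {p : MvPolynomial (Fin n) ℂ} {t : ℕ}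
    (hp : p.IsHomogeneous t) : (sub M p).IsHomogeneous t := by
  have h := hp.aeval (fun i => ∑ j, C (M i j) * X j : Fin n → MvPolynomial (Fin n) ℂ)
    (n := 1) (fun i => lin_hom (M i))
  rw [one_mul] at h
  exact h

theorem plane_eq {m : Submodule ℂ (Fin n → ℂ)} (hm : finrank ℂ m ≤ 2) {a b : Fin n → ℂ}
    (ha : a ∈ m) (hb : b ∈ m) (ha0 : a ≠ 0) (hab : b ∉ Submodule.span ℂ {a}) :
    m = Submodule.span ℂ {a, b} := by
  have h1 : Submodule.span ℂ {a, b} ≤ m := by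
    rw [Submodule.span_le]
    rintro x (rfl | rfl)
    · exact ha
    · exact hb
  have h2 : LinearIndependent ℂ ![a, b] := by
    rw [LinearIndependent.pair_iff]
    intro s t hst
    have ht : t = 0 := by
      by_contra ht
      apply hab
      refine Submodule.mem_span_singleton.2 ⟨-(t⁻¹ * s), ?_⟩
      have h3 : t⁻¹ • (s • a + t • b) = 0 := by rw [hst, smul_zero]
      rw [smul_add, smul_smul, smul_smul, inv_mul_cancel₀ ht, one_smul] at h3
      rw [neg_smul]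
      exact (eq_neg_of_add_eq_zero_right h3).symm
    subst ht
    rw [zero_smul, add_zero] at hst
    exact ⟨(smul_eq_zero.1 hst).resolve_right ha0, rfl⟩
  have h3 : finrank ℂ (Submodule.span ℂ {a, b}) = 2 := by
    have h4 := finrank_span_eq_card h2
    rw [Matrix.range_cons, Matrix.range_cons, Matrix.range_empty, Set.union_empty,
      Set.singleton_union, Fintype.card_fin] at h4
    exact h4
  exact (Submodule.eq_of_le_of_finrank_le h1 (by rw [h3]; exact hm)).symm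

theorem exists_eigen {m : Submodule ℂ (Fin n → ℂ)} {a : Fin n → ℂ} (ha : a ∈ m) (ha0 : a ≠ 0)
    {M : Matrix (Fin n) (Fin n) ℂ} (h : ∀ x ∈ m, M *ᵥ x ∈ m) :
    ∃ b ∈ m, b ≠ 0 ∧ ∃ c : ℂ, M *ᵥ b = c • b := by
  have : Nontrivial m := ⟨⟨⟨a, ha⟩, 0, fun h => ha0 (congrArg Subtype.val h)⟩⟩
  obtain ⟨c, hc⟩ := Module.End.exists_eigenvalue (M.mulVecLin.restrict h : Module.End ℂ m)
  obtain ⟨v, hv⟩ := hc.exists_hasEigenvector
  refine ⟨v, v.2, fun h => hv.2 (Subtype.ext h), c, ?_⟩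
  exact congrArg Subtype.val hv.apply_eq_smul

end

variable {G : Type} [Group G] {n : ℕ}

/-- the elements which act on `ℂ^n` as scalars -/
def scal (ρ : G →* Matrix (Fin n) (Fin n) ℂ) : Subgroup G where
  carrier := {g | ∃ c : ℂ, ρ g = c • 1}
  one_mem' := ⟨1, by rw [map_one, one_smul]⟩
  mul_mem' := by
    rintro a b ⟨c, hc⟩ ⟨d, hd⟩
    exact ⟨c * d, by rw [map_mul, hc, hd, smul_mul_smul_comm, one_mul]⟩
  inv_mem' := by
    rintro a ⟨c, hc⟩
    have h1 : ρ a * ρ a⁻¹ = 1 := by rw [← map_mul, mul_inv_cancel, map_one]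
    rw [hc, smul_mul_assoc, one_mul] at h1
    by_cases h : c = 0
    · refine ⟨0, ?_⟩
      rw [h, zero_smul] at h1
      rw [← mul_one (ρ a⁻¹), ← h1, mul_zero, smul_zero]
    · refine ⟨c⁻¹, ?_⟩
      rw [← h1, smul_smul, inv_mul_cancel₀ h, one_smul]

/-- the situation -/
structure LSit (G : Type) [Group G] (n : ℕ) where
  I : Ideal (MvPolynomial (Fin n) ℂ)
  hom : Hom I
  ρ : G →* Matrix (Fin n) (Fin n) ℂ
  stable : ∀ (g : G), ∀ p ∈ I, sub (ρ g) p ∈ I
  free : ∀ v : Fin n → ℂ, v ≠ 0 → (∀ p ∈ I, eval v p = 0) → ∀ (g : G) (c : ℂ),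
    ρ g *ᵥ v = c • v → ρ g = c • 1

namespace LSit

variable (S : LSit G n)

/-- the lines of the orbit -/
noncomputable def pt (z : Fin n → ℂ) (i : G ⧸ scal S.ρ) : Fin n → ℂ := S.ρ i.out *ᵥ z

theorem zero_act {v : Fin n → ℂ} (hv : ∀ p ∈ S.I, eval v p = 0) (g : G) :
    ∀ p ∈ S.I, eval (S.ρ g *ᵥ v) p = 0 := by
  intro p hp
  rw [← eval_sub]
  exact hv _ (S.stable g p hp)

theorem act_ne {v : Fin n → ℂ} (hv : v ≠ 0) (g : G) : S.ρ g *ᵥ v ≠ 0 := by
  intro h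
  apply hv
  have h1 : S.ρ g⁻¹ *ᵥ (S.ρ g *ᵥ v) = v := by
    rw [Matrix.mulVec_mulVec, ← map_mul, inv_mul_cancel, map_one, Matrix.one_mulVec]
  rw [← h1, h, Matrix.mulVec_zero]

theorem scal_ne {c : ℂ} {g : G} (hc : S.ρ g = c • 1) {v : Fin n → ℂ} (hv : v ≠ 0) : c ≠ 0 := by
  rintro rfl
  apply S.act_ne hv g
  rw [hc, zero_smul, Matrix.zero_mulVec]

theorem act_eq {z : Fin n → ℂ} (hz : z ≠ 0) (g : G) :
    ∃ c : ℂ, c ≠ 0 ∧ S.ρ g *ᵥ z = c • S.pt z (g : G ⧸ scal S.ρ) := by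
  obtain ⟨⟨h, c, hc⟩, hh⟩ := QuotientGroup.mk_out_eq_mul (scal S.ρ) g
  have hc0 := S.scal_ne hc hz
  refine ⟨c⁻¹, inv_ne_zero hc0, ?_⟩
  have hh' : (g : G ⧸ scal S.ρ).out = g * h := hh
  rw [pt, hh', map_mul, hc, mul_smul_comm, mul_one, Matrix.smul_mulVec, smul_smul,
    inv_mul_cancel₀ hc0, one_smul]

theorem act_pt {z : Fin n → ℂ} (hz : z ≠ 0) (g : G) (i : G ⧸ scal S.ρ) :
    ∃ c : ℂ, c ≠ 0 ∧ S.ρ g *ᵥ S.pt z i = c • S.pt z (g • i) := by
  have h1 : g • i = ((g * i.out : G) : G ⧸ scal S.ρ) := by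
    conv_lhs => rw [← QuotientGroup.out_eq' i]
    rfl
  have h2 : S.ρ g *ᵥ S.pt z i = S.ρ (g * i.out) *ᵥ z := by
    rw [pt, Matrix.mulVec_mulVec, ← map_mul]
  rw [h2, h1]
  exact S.act_eq hz _

theorem pt_zero {v : Fin n → ℂ} (hv : ∀ p ∈ S.I, eval v p = 0) (i : G ⧸ scal S.ρ) :
    ∀ p ∈ S.I, eval (S.pt v i) p = 0 := S.zero_act hv _

theorem pt_ne {v : Fin n → ℂ} (hv : v ≠ 0) (i : G ⧸ scal S.ρ) : S.pt v i ≠ 0 := S.act_ne hv _

theorem pt_notMem {z : Fin n → ℂ} (hz0 : z ≠ 0) (hz : ∀ p ∈ S.I, eval z p = 0)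
    {i j : G ⧸ scal S.ρ} (hij : i ≠ j) : S.pt z j ∉ Submodule.span ℂ {S.pt z i} := by
  intro h
  obtain ⟨c, hc⟩ := Submodule.mem_span_singleton.1 h
  apply hij
  have h1 : S.ρ (i.out⁻¹ * j.out) *ᵥ z = c • z := by
    rw [map_mul, ← Matrix.mulVec_mulVec]
    have h2 : S.ρ j.out *ᵥ z = c • (S.ρ i.out *ᵥ z) := hc.symm
    rw [h2, Matrix.mulVec_smul, Matrix.mulVec_mulVec, ← map_mul, inv_mul_cancel, map_one,
      Matrix.one_mulVec]
  have h2 := S.free z hz0 hz _ _ h1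
  rw [← QuotientGroup.out_eq' i, ← QuotientGroup.out_eq' j]
  exact QuotientGroup.eq.2 ⟨c, h2⟩

/-- a plane containing more than half of an orbit is stable -/
theorem stab [Finite G] {z : Fin n → ℂ} (hz0 : z ≠ 0) (hz : ∀ p ∈ S.I, eval z p = 0)
    {m : Submodule ℂ (Fin n → ℂ)} (hm : finrank ℂ m ≤ 2) (A : Finset (G ⧸ scal S.ρ))
    (hA : ∀ i ∈ A, S.pt z i ∈ m) (hc : (scal S.ρ).index + 2 ≤ 2 * A.card) (g : G) :
    ∀ x ∈ m, S.ρ g *ᵥ x ∈ m := by
  classical
  have _ := Fintype.ofFinite (G ⧸ scal S.ρ)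
  have hidx : (scal S.ρ).index = Fintype.card (G ⧸ scal S.ρ) := by
    rw [Subgroup.index, Nat.card_eq_fintype_card]
  set B := A.image fun i => g • i with hB
  have hBc : B.card = A.card := Finset.card_image_of_injective _ (MulAction.injective g)
  have h1 : (A ∪ B).card ≤ (scal S.ρ).index := by
    rw [hidx]
    exact Finset.card_le_univ _
  have h2 := Finset.card_union_add_card_inter A B
  have h3 : 1 < (A ∩ B).card := by omega
  obtain ⟨i, hi, j, hj, hij⟩ := Finset.one_lt_card.1 h3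
  rw [Finset.mem_inter] at hi hj
  obtain ⟨i', hi', rfl⟩ := Finset.mem_image.1 hi.2
  obtain ⟨j', hj', rfl⟩ := Finset.mem_image.1 hj.2
  have hij' : i' ≠ j' := fun h => hij (by rw [h])
  have e1 : S.ρ g *ᵥ S.pt z i' ∈ m := by
    obtain ⟨c, _, hc⟩ := S.act_pt hz0 g i'
    rw [hc]
    exact Submodule.smul_mem _ _ (hA _ hi.1)
  have e2 : S.ρ g *ᵥ S.pt z j' ∈ m := by
    obtain ⟨c, _, hc⟩ := S.act_pt hz0 g j'
    rw [hc]
    exact Submodule.smul_mem _ _ (hA _ hj.1)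
  have h4 := plane_eq hm (hA _ hi') (hA _ hj') (S.pt_ne hz0 i') (S.pt_notMem hz0 hz hij')
  intro x hx
  rw [h4] at hx
  obtain ⟨a, b, rfl⟩ := Submodule.mem_span_pair.1 hx
  rw [Matrix.mulVec_add, Matrix.mulVec_smul, Matrix.mulVec_smul]
  exact Submodule.add_mem _ (Submodule.smul_mem _ _ e1) (Submodule.smul_mem _ _ e2)

theorem plane_core [Finite G] {r : ℕ} (hr : TopBound S.I r) {κ : Type} [Fintype κ]
    (z : κ → Fin n → ℂ) (hz0 : ∀ k, z k ≠ 0) (hz : ∀ k, ∀ p ∈ S.I, eval (z k) p = 0)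
    (horb : ∀ k l, k ≠ l → ∀ i j, S.pt (z l) j ∉ Submodule.span ℂ {S.pt (z k) i})
    {m : Submodule ℂ (Fin n → ℂ)} (hm : finrank ℂ m ≤ 2) (A : κ → Finset (G ⧸ scal S.ρ))
    (hA : ∀ k, ∀ i ∈ A k, S.pt (z k) i ∈ m) {k0 : κ}
    (hc : (scal S.ρ).index + 2 ≤ 2 * (A k0).card) {e : ℕ}
    (he : e = 1 ∨ e = 2 ∧ ∀ k, ∀ i ∈ A k, ∀ b ∈ m, ∀ p ∈ S.I, dv p (S.pt (z k) i) b = 0) :
    e * ∑ k, (A k).card ≤ r + 1 := by
  classical
  have _ := Fintype.ofFinite (G ⧸ scal S.ρ)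
  have hidx : (scal S.ρ).index = Fintype.card (G ⧸ scal S.ρ) := by
    rw [Subgroup.index, Nat.card_eq_fintype_card]
  have hle : (A k0).card ≤ (scal S.ρ).index := by
    rw [hidx]
    exact Finset.card_le_univ _
  -- an element which is not a scalar
  obtain ⟨g, hg⟩ : ∃ g, g ∉ scal S.ρ := by
    by_contra h
    push Not at h
    have h1 : (scal S.ρ).index = 1 := by
      rw [(Subgroup.eq_top_iff' _).2 h, Subgroup.index_top]
    omega
  have hst := S.stab (hz0 k0) (hz k0) hm (A k0) (hA k0) hc g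
  obtain ⟨i0, hi0⟩ : (A k0).Nonempty := Finset.card_pos.1 (by omega)
  obtain ⟨b, hb, hb0, c, hbc⟩ := exists_eigen (hA k0 i0 hi0) (S.pt_ne (hz0 k0) i0) hst
  have hbI : ∃ p ∈ S.I, eval b p ≠ 0 := by
    by_contra h
    push Not at h
    exact hg ⟨c, S.free b hb0 h g c hbc⟩
  have hy : S.pt (z k0) i0 ∉ Submodule.span ℂ {b} := by
    intro h
    obtain ⟨d, hd⟩ := Submodule.mem_span_singleton.1 h
    have hd0 : d ≠ 0 := by
      rintro rfl
      exact S.pt_ne (hz0 k0) i0 (by rw [← hd, zero_smul])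
    obtain ⟨p, hp, hpb⟩ := hbI
    apply hpb
    have h1 := cone S.hom (S.pt_zero (hz k0) i0) d⁻¹ p hp
    rw [← hd] at h1
    have h2 : (fun i => d⁻¹ * (d • b) i) = b := by
      funext i
      rw [Pi.smul_apply, smul_eq_mul, ← mul_assoc, inv_mul_cancel₀ hd0, one_mul]
    rwa [h2] at h1
  have hspan : m = Submodule.span ℂ {S.pt (z k0) i0, b} := by
    have h1 := plane_eq hm hb (hA k0 i0 hi0) hb0 hy
    rw [h1, Set.pair_comm]
  have h1 := line_bound (e := e) S.hom hr hb0 hbI hy (ι := (k : κ) × {i // i ∈ A k})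
    (fun x => S.pt (z x.1) x.2.1) (fun x => by
      rw [← hspan]
      exact hA x.1 _ x.2.2) (fun x => S.pt_ne (hz0 _) _) (fun x => S.pt_zero (hz _) _) (by
      rintro ⟨k, i, hi⟩ ⟨l, j, hj⟩ hne
      by_cases hkl : k = l
      · subst hkl
        refine S.pt_notMem (hz0 k) (hz k) ?_
        rintro rfl
        exact hne rfl
      · exact horb k l hkl i j) (by
      rcases he with he | ⟨he, h⟩
      · exact Or.inl he
      · exact Or.inr ⟨he, fun x p hp => h x.1 _ x.2.2 b hb p hp⟩)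
  rw [Fintype.card_sigma] at h1
  simpa using h1

end LSit

end Pool.Agent.K3h94.FQ
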